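import Pool.Agent.Lib_helper20.FI.Basic
import Pool.Agent.Lib_helper31.PS.Arc

/-!
# The inverse theorem for multiples of `6`, index form

The proof is that of `Pool.Agent.Lib_helper31.PS.arc_power` (helper31), with the inequality with three
terms in index form for all classes.
-/

set_option autoImplicit false

namespace Pool.Agent.Lib_helper20.FI

open Finset Pool.Agent.Lib_helper31.PS Pool.Agent.Lib_helper23.PG Pool.Agent.Lib_helper20.FP

/-- the exponent may be supposed at most `1` -/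
theorem ThreeTermC.min_one {D : Set ℕ} {η c C : ℝ} (hT : ThreeTermC D η c C) :
    ThreeTermC D η (min c 1) C := fun M hM0 hM c₀ b b₁ b₂ hc₀ hb h3 h1 h2 hF =>
  hT M hM0 hM c₀ b b₁ b₂ hc₀ hb h3 h1 h2 fun h => hF fun a ha hac N hN =>
    (h a ha hac N hN).trans (mul_le_mul_of_nonneg_left
      (Real.rpow_le_rpow_of_exponent_le (by exact_mod_cast hN) (by
        have := min_le_left c 1
        linarith)) (h.const_nonneg hM0))

/-- the members of one class in a window of indices -/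
theorem class_index {D : Set ℕ} {q Q s : ℕ} {c C : ℝ} (hq : 0 < q) (hQ : 0 < Q)
    (h : FewC D (Q * q) (s * q) c C) (N y : ℕ) (hN : 0 < N) :
    (({j : ℕ | j ≡ s [MOD Q] ∧ q * j ∉ D} ∩ Set.Ioc y (y + N)).ncard : ℝ) ≤
      C * (((N - 1) / Q + 1 : ℕ) : ℝ) ^ (1 - c) := by
  obtain ⟨a, ha, hac, hmem⟩ := first_member hQ s y
  have hacq : q * a ≡ s * q [MOD Q * q] := by
    rw [mul_comm q a]
    exact Nat.ModEq.mul_right' q hac
  refine le_trans ?_ (h (q * a) (Nat.mul_pos hq (by omega)) hacq ((N - 1) / Q + 1)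
    (Nat.succ_pos _))
  refine Nat.cast_le.2 (Set.ncard_le_ncard_of_injOn (fun d => (d - a) / Q) ?_ ?_
    ((Set.finite_Iio _).inter_of_right _))
  · rintro d ⟨⟨hd1, hd2⟩, hd3, hd4⟩
    obtain ⟨j, rfl⟩ := hmem d hd3 hd1
    have h1 : (a + Q * j - a) / Q = j := by
      rw [Nat.add_sub_cancel_left, Nat.mul_div_cancel_left j hQ]
    show (a + Q * j - a) / Q ∈ _
    rw [h1]
    refine ⟨?_, ?_⟩
    · show q * a + Q * q * j ∉ D
      have h2 : q * a + Q * q * j = q * (a + Q * j) := by ring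
      rw [h2]
      exact hd2
    · show j < (N - 1) / Q + 1
      rw [Nat.lt_succ_iff, Nat.le_div_iff_mul_le hQ, mul_comm]
      omega
  · rintro d ⟨⟨hd1, hd2⟩, hd3, hd4⟩ d' ⟨⟨hd1', hd2'⟩, hd3', hd4'⟩ hdd
    obtain ⟨j, rfl⟩ := hmem d hd3 hd1
    obtain ⟨j', rfl⟩ := hmem d' hd3' hd1'
    have h1 : ∀ i, (a + Q * i - a) / Q = i := fun i => by
      rw [Nat.add_sub_cancel_left, Nat.mul_div_cancel_left i hQ]
    have h2 : (a + Q * j - a) / Q = (a + Q * j' - a) / Q := hdd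
    rw [h1, h1] at h2
    rw [h2]

/-- the members of at most `Q / 2` classes in a window of indices -/
theorem arc_count {D : Set ℕ} {q Q : ℕ} {c C : ℝ} (hc0 : 0 < c) (hc1 : c ≤ 1) (hC : 0 ≤ C)
    (hq : 0 < q) (hQ : 0 < Q) (U : Finset ℤ) (ρ : ℤ → ℕ) (hU : 2 * #U ≤ Q)
    (h : ∀ i ∈ U, FewC D (Q * q) (ρ i * q) c C) (N y : ℕ) (hN : 0 < N) :
    (({j : ℕ | (∃ i ∈ U, j ≡ ρ i [MOD Q]) ∧ q * j ∉ D} ∩ Set.Ioc y (y + N)).ncard : ℝ) ≤
      C * (Q : ℝ) ^ c * (N : ℝ) ^ (1 - c) := by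
  have hQR : (0 : ℝ) < Q := by exact_mod_cast hQ
  have hNR : (0 : ℝ) < N := by exact_mod_cast hN
  have hQc : (0 : ℝ) ≤ (Q : ℝ) ^ c := Real.rpow_nonneg hQR.le _
  have hNc : (0 : ℝ) ≤ (N : ℝ) ^ (1 - c) := Real.rpow_nonneg hNR.le _
  rcases le_total Q N with hQN | hNQ
  · have hQN' : (Q : ℝ) ≤ N := by exact_mod_cast hQN
    have hsub : ({j : ℕ | (∃ i ∈ U, j ≡ ρ i [MOD Q]) ∧ q * j ∉ D} ∩ Set.Ioc y (y + N)) ⊆
        ⋃ i ∈ U, ({j : ℕ | j ≡ ρ i [MOD Q] ∧ q * j ∉ D} ∩ Set.Ioc y (y + N)) := by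
      rintro j ⟨⟨⟨i, hi, hij⟩, hj⟩, hx⟩
      rw [Set.mem_iUnion₂]
      exact ⟨i, hi, ⟨hij, hj⟩, hx⟩
    have h1 : ({j : ℕ | (∃ i ∈ U, j ≡ ρ i [MOD Q]) ∧ q * j ∉ D} ∩ Set.Ioc y (y + N)).ncard ≤
        ∑ i ∈ U, ({j : ℕ | j ≡ ρ i [MOD Q] ∧ q * j ∉ D} ∩ Set.Ioc y (y + N)).ncard := by
      refine (Set.ncard_le_ncard hsub ?_).trans (Finset.set_ncard_biUnion_le _ _)
      exact Set.Finite.biUnion (finite_toSet _) fun i _ => (Set.finite_Ioc _ _).inter_of_right _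
    have h2 : (((N - 1) / Q + 1 : ℕ) : ℝ) ≤ 2 * (N / Q) := by
      have k1 : (((N - 1) / Q : ℕ) : ℝ) ≤ (N : ℝ) / Q := by
        refine (Nat.cast_div_le (α := ℝ)).trans (div_le_div_of_nonneg_right ?_ hQR.le)
        exact_mod_cast Nat.sub_le N 1
      have k2 : (1 : ℝ) ≤ N / Q := (one_le_div hQR).2 hQN'
      push_cast
      linarith
    have h3 : (((N - 1) / Q + 1 : ℕ) : ℝ) ^ (1 - c) ≤ 2 * ((N : ℝ) / Q) ^ (1 - c) := by
      refine (Real.rpow_le_rpow (Nat.cast_nonneg _) h2 (by linarith)).trans ?_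
      rw [Real.mul_rpow (by norm_num) (by positivity)]
      refine mul_le_mul_of_nonneg_right ?_ (by positivity)
      have k1 : (2 : ℝ) ^ (1 - c) ≤ 2 ^ (1 : ℝ) :=
        Real.rpow_le_rpow_of_exponent_le (by norm_num) (by linarith)
      rwa [Real.rpow_one] at k1
    have h4 : (Q : ℝ) * ((N : ℝ) / Q) ^ (1 - c) = (Q : ℝ) ^ c * (N : ℝ) ^ (1 - c) := by
      rw [Real.div_rpow hNR.le hQR.le]
      have k1 : (Q : ℝ) ^ c * (Q : ℝ) ^ (1 - c) = Q := by
        rw [← Real.rpow_add hQR]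
        have : c + (1 - c) = 1 := by ring
        rw [this, Real.rpow_one]
      have k2 : (0 : ℝ) < (Q : ℝ) ^ (1 - c) := Real.rpow_pos_of_pos hQR _
      rw [mul_div_assoc', div_eq_iff k2.ne']
      linear_combination (-(N : ℝ) ^ (1 - c)) * k1
    have h5 : (2 : ℝ) * #U ≤ Q := by exact_mod_cast hU
    calc (({j : ℕ | (∃ i ∈ U, j ≡ ρ i [MOD Q]) ∧ q * j ∉ D} ∩ Set.Ioc y (y + N)).ncard : ℝ)
        ≤ ∑ i ∈ U, (({j : ℕ | j ≡ ρ i [MOD Q] ∧ q * j ∉ D} ∩ Set.Ioc y (y + N)).ncard : ℝ) := by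
          exact_mod_cast h1
      _ ≤ ∑ _i ∈ U, C * (2 * ((N : ℝ) / Q) ^ (1 - c)) := by
          refine sum_le_sum fun i hi => (class_index hq hQ (h i hi) N y hN).trans ?_
          exact mul_le_mul_of_nonneg_left h3 hC
      _ = (2 * #U) * (C * ((N : ℝ) / Q) ^ (1 - c)) := by
          rw [sum_const, nsmul_eq_mul]
          ring
      _ ≤ Q * (C * ((N : ℝ) / Q) ^ (1 - c)) := by
          refine mul_le_mul_of_nonneg_right h5 ?_
          have : (0 : ℝ) ≤ ((N : ℝ) / Q) ^ (1 - c) := by positivity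
          positivity
      _ = C * (Q : ℝ) ^ c * (N : ℝ) ^ (1 - c) := by
          linear_combination C * h4
  · rcases Set.eq_empty_or_nonempty
      ({j : ℕ | (∃ i ∈ U, j ≡ ρ i [MOD Q]) ∧ q * j ∉ D} ∩ Set.Ioc y (y + N)) with h1 | h1
    · rw [h1, Set.ncard_empty, Nat.cast_zero]
      positivity
    · obtain ⟨j, ⟨⟨i, hi, hij⟩, hj⟩, hx⟩ := h1
      have hj0 : 0 < j := by
        have := hx.1
        omega
      have h2 := h i hi (q * j) (Nat.mul_pos hq hj0) (by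
        rw [mul_comm q j]
        exact Nat.ModEq.mul_right' q hij) 1 one_pos
      rw [Nat.cast_one, Real.one_rpow, mul_one] at h2
      have h3 : 1 ≤ ({l : ℕ | q * j + Q * q * l ∉ D} ∩ Set.Iio 1).ncard := by
        rw [Nat.succ_le_iff, Set.ncard_pos ((Set.finite_Iio _).inter_of_right _)]
        exact ⟨0, by simpa using hj, by simp⟩
      have h4 : (1 : ℝ) ≤ C := by
        have k1 : (1 : ℝ) ≤ (({l : ℕ | q * j + Q * q * l ∉ D} ∩ Set.Iio 1).ncard : ℝ) := by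
          exact_mod_cast h3
        exact k1.trans h2
      have h5 : ({j : ℕ | (∃ i ∈ U, j ≡ ρ i [MOD Q]) ∧ q * j ∉ D} ∩ Set.Ioc y (y + N)).ncard ≤ N := by
        refine (Set.ncard_le_ncard (Set.inter_subset_right) (Set.finite_Ioc _ _)).trans ?_
        rw [← Finset.coe_Ioc, Set.ncard_coe_finset, Nat.card_Ioc]
        omega
      have h6 : (N : ℝ) = (N : ℝ) ^ c * (N : ℝ) ^ (1 - c) := by
        rw [← Real.rpow_add hNR]
        have : c + (1 - c) = 1 := by ring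
        rw [this, Real.rpow_one]
      have h7 : (N : ℝ) ^ c ≤ (Q : ℝ) ^ c :=
        Real.rpow_le_rpow hNR.le (by exact_mod_cast hNQ) hc0.le
      calc (({j : ℕ | (∃ i ∈ U, j ≡ ρ i [MOD Q]) ∧ q * j ∉ D} ∩ Set.Ioc y (y + N)).ncard : ℝ)
          ≤ N := by exact_mod_cast h5
        _ = (N : ℝ) ^ c * (N : ℝ) ^ (1 - c) := h6
        _ ≤ (Q : ℝ) ^ c * (N : ℝ) ^ (1 - c) := mul_le_mul_of_nonneg_right h7 hNc
        _ = 1 * ((Q : ℝ) ^ c * (N : ℝ) ^ (1 - c)) := (one_mul _).symm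
        _ ≤ C * ((Q : ℝ) ^ c * (N : ℝ) ^ (1 - c)) :=
          mul_le_mul_of_nonneg_right h4 (mul_nonneg hQc hNc)
        _ = C * (Q : ℝ) ^ c * (N : ℝ) ^ (1 - c) := by ring

/-- **The inverse theorem with power saving, index form.** -/
theorem arc_index {k : ℕ} {D : Set ℕ} (hD : HitsBins 4 k D) {c C : ℝ} (hc0 : 0 < c) (hc1 : c ≤ 1)
    (hT : ThreeTermC D (1 / 4) c C) : ∀ q : ℕ, 0 < q → 6 ∣ q → ∀ ε : ℝ, 0 ≤ ε →
      Share D q 0 ((1 / 2 - ε) / q) ∨ ∃ (Q : ℕ) (e : ℤ), Q % 4 = 3 ∧ IsCoprime e (Q : ℤ) ∧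
        2 * ε * Q < 1 ∧ FewI D q {d : ℕ | ∃ j : ℕ, d = q * j ∧
          ∃ i : ℤ, 4 * |i| < (Q : ℤ) ∧ (Q : ℤ) ∣ e * j - i} c (C * (Q : ℝ) ^ c) := by
  classical
  intro q hq h6 ε hε
  have hqR : (0 : ℝ) < q := by exact_mod_cast hq
  by_cases hS : Share D q 0 ((1 / 2 - ε) / q)
  · exact Or.inl hS
  right
  -- a smaller share fails as well
  obtain ⟨e₀, he₀, hS'⟩ : ∃ e : ℝ, 0 < e ∧ ¬ Share D q 0 ((1 / 2 - ε) / q - e) := by
    by_contra hcon
    push Not at hcon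
    exact hS (Share.of_forall hcon)
  have hS2 : ¬ Share D q 0 ((1 / 2 - (ε + e₀ * q)) / q) := by
    have h1 : (1 / 2 - (ε + e₀ * q)) / (q : ℝ) = (1 / 2 - ε) / q - e₀ := by
      field_simp
      ring
    rw [h1]
    exact hS'
  have hhalf : ¬ Share D q 0 (1 / 2 / (q : ℝ)) := fun h =>
    hS (h.mono (div_le_div_of_nonneg_right (by linarith) hqR.le))
  rcases Pool.Agent.TA.ta_windows2 D k hD q hq h6 (ε + e₀ * q) (by positivity) with
    h | ⟨r, J, hr, ⟨d, hd, hJ⟩, hb, hη⟩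
  · exact absurd (share_of_index hq _ h) hS2
  obtain ⟨Q, hQ⟩ : ∃ Q, Q = 4 * r - 1 := ⟨_, rfl⟩
  have hQ0 : 0 < Q := by omega
  have hQZ : (Q : ℤ) = 4 * (r : ℤ) - 1 := by omega
  have hQR : (Q : ℝ) = 4 * r - 1 := by
    rw [hQ, Nat.cast_sub (by omega)]
    push_cast
    ring
  have hQR0 : (0 : ℝ) < Q := by exact_mod_cast hQ0
  rw [← hQZ] at hd
  have hM : 0 < Q * q := Nat.mul_pos hQ0 hq
  have hM6 : 6 ∣ Q * q := h6.mul_left Q
  have hq2 : Even q := by
    rw [even_iff_two_dvd]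
    exact (by norm_num : 2 ∣ 6).trans h6
  have hq3 : 3 ∣ q := (by norm_num : 3 ∣ 6).trans h6
  -- the full classes
  have hfull : ∀ i ∈ Ioo (-(r : ℤ)) r, Share D (Q * q) (rho d Q i * q) (1 / ((Q * q : ℕ) : ℝ)) := by
    intro i hi
    rw [mem_Ioo] at hi
    refine share_full hq hQ0 (fun s => ((s : ℕ) : ZMod (4 * r - 1)) ∈ J) ?_ hη (rho d Q i) ?_
    · intro s s' hss hs
      have h1 : ((s : ℕ) : ZMod (4 * r - 1)) = ((s' : ℕ) : ZMod (4 * r - 1)) :=
        (ZMod.natCast_eq_natCast_iff _ _ _).2 (hQ ▸ hss)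
      rwa [← h1]
    · have h1 := hJ ((rho d Q i : ℕ) : ℤ) ⟨i, abs_lt.2 ⟨by omega, hi.2⟩, by
        rw [← hQZ]
        have := (rho_modEq d hQ0 i).symm.dvd
        exact this⟩
      simpa using h1
  have hrho0 : rho d Q 0 = 0 := by
    unfold rho
    rw [zero_mul, Int.zero_emod, Int.toNat_zero]
  -- the class of `0`
  have hzero : FewC D (Q * q) 0 c C := by
    by_contra hF
    have h : ∀ a : ℕ, Even a → Share D (Q * q) a ((1 - 1 / 4) / (3 * ((Q * q : ℕ) : ℝ))) :=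
      fun a ha => third_ofC hT hM hM6 hF a ha
    refine hhalf (half_of_sum hq hr hQ hd hfull (Ico (r : ℤ) (3 * r)) (fun i hi => by
      rw [mem_Ico] at hi
      exact hi) ?_)
    intro e he
    obtain ⟨L, hL⟩ := shares_sum (Ico (r : ℤ) (3 * r)) (fun i => rho d Q i * q)
      (fun _ => (1 - 1 / 4) / (3 * ((Q * q : ℕ) : ℝ))) (fun i _ => h _ (hq2.mul_left _)) e he
    refine ⟨L, fun n hn x => le_trans ?_ (hL n hn x)⟩
    refine mul_le_mul_of_nonneg_right (sub_le_sub_right ?_ _) (Nat.cast_nonneg n)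
    rw [sum_const, nsmul_eq_mul, Int.card_Ico]
    have h7 : ((3 * (r : ℤ)) - r).toNat = 2 * r := by omega
    rw [h7]
    push_cast
    have hr1 : (1 : ℝ) ≤ r := by exact_mod_cast hr
    have h8 : (0 : ℝ) < Q * q := by positivity
    have h9 : 2 * (r : ℝ) * ((1 - 1 / 4) / (3 * (Q * q))) = r / 2 / (Q * q) := by
      field_simp
      ring
    rw [h9]
    refine div_le_div_of_nonneg_right ?_ h8.le
    linarith
  -- all classes
  have hclass : ∀ i : ℤ, i ∈ Ioo (-(r : ℤ)) r → FewC D (Q * q) (rho d Q i * q) c C := by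
    intro i hi
    rcases eq_or_ne i 0 with rfl | hi0
    · rw [hrho0, zero_mul]
      exact hzero
    rw [mem_Ioo] at hi
    by_contra hF
    have h3 := hT (Q * q) hM hM6 (rho d Q i * q) (rho d Q (2 * r) * q) (rho d Q (2 * r - i) * q)
      (rho d Q (2 * r + i) * q) (hq2.mul_left _) (hq2.mul_left _) (Or.inl (hq3.mul_left _))
      (by
        rw [← add_mul]
        refine Nat.ModEq.mul_right' q ?_
        have h4 := rho_add d hQ0 (2 * r - i) i
        rwa [sub_add_cancel] at h4)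
      (by
        rw [← add_mul]
        exact Nat.ModEq.mul_right' q (rho_add d hQ0 (2 * r) i))
      hF
    refine hhalf (half_of_sum hq hr hQ hd hfull {2 * (r : ℤ) - i, 2 * (r : ℤ), 2 * (r : ℤ) + i}
      (fun j hj => by
        rw [mem_insert, mem_insert, mem_singleton] at hj
        rcases hj with rfl | rfl | rfl <;> constructor <;> omega) ?_)
    intro e he
    obtain ⟨L, hL⟩ := h3 e he
    refine ⟨L, fun n hn x => ?_⟩
    have h4 := hL n hn x
    rw [sum_insert (by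
      rw [mem_insert, mem_singleton]
      omega), sum_insert (by
      rw [mem_singleton]
      omega), sum_singleton, ← add_assoc]
    have h5 : ∀ M a x n : ℕ, cnt D M a x n = cN D M a x n := fun M a x n => cN_eq D M a x n
    rw [h5, h5, h5] at h4
    refine le_trans (mul_le_mul_of_nonneg_right (sub_le_sub_right ?_ _) (Nat.cast_nonneg n)) h4
    exact div_le_div_of_nonneg_right (by norm_num) (Nat.cast_nonneg _)
  -- the bound for `Q`
  have hbound : 2 * ε * (Q : ℝ) < 1 := by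
    rw [← hQR] at hb
    have h1 : 0 < 2 * (e₀ * q) * (Q : ℝ) := by positivity
    have h2 : 2 * (ε + e₀ * q) * (Q : ℝ) = 2 * ε * Q + 2 * (e₀ * q) * Q := by ring
    linarith
  obtain ⟨e, c', hec⟩ := hd
  refine ⟨Q, e, by omega, ⟨d, c', by rw [mul_comm d e]; exact hec⟩, hbound, fun n x hn => ?_⟩
  refine le_trans ?_ (arc_count hc0 hc1 (hzero.const_nonneg hM) hq hQ0 (Ioo (-(r : ℤ)) r) (rho d Q)
    (by
      rw [Int.card_Ioo]
      omega) hclass n x hn)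
  refine Nat.cast_le.2 (Set.ncard_le_ncard ?_ ((Set.finite_Ioc _ _).inter_of_right _))
  rintro j ⟨⟨⟨j', hjj, i, hi, hei⟩, hjD⟩, hx⟩
  obtain rfl : j = j' := Nat.eq_of_mul_eq_mul_left hq hjj
  refine ⟨⟨⟨i, ?_, ?_⟩, hjD⟩, hx⟩
  · rw [mem_Ioo]
    have h1 : |i| < r := by omega
    rw [abs_lt] at h1
    exact h1
  · have h1 : (j : ℤ) ≡ i * d [ZMOD Q] := by
      refine (Int.modEq_iff_dvd.2 ?_).symm
      have h2 : (j : ℤ) - i * d = d * (e * j - i) + Q * (c' * j) := by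
        linear_combination (-(j : ℤ)) * hec
      rw [h2]
      exact dvd_add (hei.mul_left d) (dvd_mul_right _ _)
    rw [← Int.natCast_modEq_iff]
    exact h1.trans (rho_modEq d hQ0 i).symm

end Pool.Agent.Lib_helper20.FI
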