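import Pool.Agent.Lib_helper20.FP.Basic

/-!
# Few exceptions among consecutive members of a class
-/

set_option autoImplicit false

namespace Pool.Agent.Lib_helper20.FI

open Finset Pool.Agent.Lib_helper31.PS Pool.Agent.Lib_helper20.FP

/-- Among any `N` consecutive members of the class of `c₀` modulo `M` at most `C * N ^ (1 - c)` are not
in `D`. -/
def FewC (D : Set ℕ) (M c₀ : ℕ) (c C : ℝ) : Prop := ∀ a : ℕ, 0 < a → a ≡ c₀ [MOD M] →
  ∀ N : ℕ, 0 < N → (({j : ℕ | a + M * j ∉ D} ∩ Set.Iio N).ncard : ℝ) ≤ C * (N : ℝ) ^ (1 - c)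

/-- Among any `N` consecutive multiples of `q` at most `C * N ^ (1 - c)` are in `X` and not in `D`. -/
def FewI (D : Set ℕ) (q : ℕ) (X : Set ℕ) (c C : ℝ) : Prop := ∀ N y : ℕ, 0 < N →
  (({j : ℕ | q * j ∈ X ∧ q * j ∉ D} ∩ Set.Ioc y (y + N)).ncard : ℝ) ≤ C * (N : ℝ) ^ (1 - c)

/-- the first member of a class after `x` -/
theorem first_member {M : ℕ} (hM : 0 < M) (c₀ x : ℕ) :
    ∃ a, x < a ∧ a ≡ c₀ [MOD M] ∧ ∀ d, x < d → d ≡ c₀ [MOD M] → ∃ j, d = a + M * j := by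
  classical
  have hex : ∃ a, x < a ∧ a ≡ c₀ [MOD M] := by
    refine ⟨c₀ + M * (x + 1), ?_, ?_⟩
    · have : x + 1 ≤ M * (x + 1) := Nat.le_mul_of_pos_left _ hM
      omega
    · exact Nat.modEq_of_dvd' (by omega) (by simp) |>.symm
  refine ⟨Nat.find hex, (Nat.find_spec hex).1, (Nat.find_spec hex).2, fun d hd hdc => ?_⟩
  have h1 : Nat.find hex ≤ d := Nat.find_min' hex ⟨hd, hdc⟩
  have h2 : Nat.find hex ≡ d [MOD M] := (Nat.find_spec hex).2.trans hdc.symm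
  obtain ⟨j, hj⟩ := (Nat.modEq_iff_dvd' h1).1 h2
  exact ⟨j, by omega⟩

/-- few exceptions in the windows -/
theorem FewC.fewOf {D : Set ℕ} {M c₀ : ℕ} {c C : ℝ} (hM : 0 < M) (h : FewC D M c₀ c C) :
    FewOf D {d | d ≡ c₀ [MOD M]} c C := by
  intro n x hn
  obtain ⟨a, ha, hac, hmem⟩ := first_member hM c₀ x
  refine le_trans ?_ (h a (by omega) hac n hn)
  refine Nat.cast_le.2 (Set.ncard_le_ncard_of_injOn (fun d => (d - a) / M) ?_ ?_
    ((Set.finite_Iio _).inter_of_right _))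
  · rintro d ⟨⟨hd1, hd2⟩, hd3, hd4⟩
    obtain ⟨j, rfl⟩ := hmem d hd3 hd1
    have h1 : (a + M * j - a) / M = j := by
      rw [Nat.add_sub_cancel_left, Nat.mul_div_cancel_left j hM]
    show (a + M * j - a) / M ∈ _
    rw [h1]
    refine ⟨hd2, ?_⟩
    show j < n
    have h2 : j ≤ M * j := Nat.le_mul_of_pos_left _ hM
    omega
  · rintro d ⟨⟨hd1, hd2⟩, hd3, hd4⟩ d' ⟨⟨hd1', hd2'⟩, hd3', hd4'⟩ hdd
    obtain ⟨j, rfl⟩ := hmem d hd3 hd1
    obtain ⟨j', rfl⟩ := hmem d' hd3' hd1'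
    have h1 : ∀ i, (a + M * i - a) / M = i := fun i => by
      rw [Nat.add_sub_cancel_left, Nat.mul_div_cancel_left i hM]
    have h2 : (a + M * j - a) / M = (a + M * j' - a) / M := hdd
    rw [h1, h1] at h2
    rw [h2]

theorem FewC.const_nonneg {D : Set ℕ} {M c₀ : ℕ} {c C : ℝ} (hM : 0 < M) (h : FewC D M c₀ c C) :
    0 ≤ C := (h.fewOf hM).const_nonneg

/-- few exceptions in a class of multiples of `q` -/
theorem FewC.fewI {D : Set ℕ} {q Q s : ℕ} {c C : ℝ} (hq : 0 < q) (hQ : 0 < Q)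
    (h : FewC D (Q * q) (s * q) c C) : FewI D q {d | d ≡ s * q [MOD Q * q]} c C := by
  intro N y hN
  obtain ⟨a, ha, hac, hmem⟩ := first_member hQ s y
  have hacq : q * a ≡ s * q [MOD Q * q] := by
    rw [mul_comm q a]
    exact Nat.ModEq.mul_right' q hac
  refine le_trans ?_ (h (q * a) (Nat.mul_pos hq (by omega)) hacq N hN)
  refine Nat.cast_le.2 (Set.ncard_le_ncard_of_injOn (fun d => (d - a) / Q) ?_ ?_
    ((Set.finite_Iio _).inter_of_right _))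
  · rintro d ⟨⟨hd1, hd2⟩, hd3, hd4⟩
    have hd1' : d * q ≡ s * q [MOD Q * q] := by
      rw [mul_comm d q]
      exact hd1
    obtain ⟨j, rfl⟩ := hmem d hd3 (Nat.ModEq.mul_right_cancel' hq.ne' hd1')
    have h1 : (a + Q * j - a) / Q = j := by
      rw [Nat.add_sub_cancel_left, Nat.mul_div_cancel_left j hQ]
    show (a + Q * j - a) / Q ∈ _
    rw [h1]
    refine ⟨?_, ?_⟩
    · show q * a + Q * q * j ∉ D
      have h2 : q * a + Q * q * j = q * (a + Q * j) := by ring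
      rw [h2]
      exact hd2
    · show j < N
      have h2 : j ≤ Q * j := Nat.le_mul_of_pos_left _ hQ
      omega
  · rintro d ⟨⟨hd1, hd2⟩, hd3, hd4⟩ d' ⟨⟨hd1', hd2'⟩, hd3', hd4'⟩ hdd
    have k1 : d * q ≡ s * q [MOD Q * q] := by
      rw [mul_comm d q]
      exact hd1
    have k2 : d' * q ≡ s * q [MOD Q * q] := by
      rw [mul_comm d' q]
      exact hd1'
    obtain ⟨j, rfl⟩ := hmem d hd3 (Nat.ModEq.mul_right_cancel' hq.ne' k1)
    obtain ⟨j', rfl⟩ := hmem d' hd3' (Nat.ModEq.mul_right_cancel' hq.ne' k2)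
    have h1 : ∀ i, (a + Q * i - a) / Q = i := fun i => by
      rw [Nat.add_sub_cancel_left, Nat.mul_div_cancel_left i hQ]
    have h2 : (a + Q * j - a) / Q = (a + Q * j' - a) / Q := hdd
    rw [h1, h1] at h2
    rw [h2]

theorem FewI.mono {D X Y : Set ℕ} {q : ℕ} {c C : ℝ} (h : FewI D q X c C) (hXY : Y ⊆ X) :
    FewI D q Y c C := by
  intro N y hN
  refine le_trans ?_ (h N y hN)
  refine Nat.cast_le.2 (Set.ncard_le_ncard ?_ ((Set.finite_Ioc _ _).inter_of_right _))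
  rintro d ⟨⟨h1, h2⟩, h3⟩
  exact ⟨⟨hXY h1, h2⟩, h3⟩

theorem FewI.union {D X Y : Set ℕ} {q : ℕ} {c C C' : ℝ} (h : FewI D q X c C)
    (h' : FewI D q Y c C') : FewI D q (X ∪ Y) c (C + C') := by
  intro N y hN
  have h1 := h N y hN
  have h2 := h' N y hN
  have h3 : ({j : ℕ | q * j ∈ X ∪ Y ∧ q * j ∉ D} ∩ Set.Ioc y (y + N)).ncard ≤
      ({j : ℕ | q * j ∈ X ∧ q * j ∉ D} ∩ Set.Ioc y (y + N)).ncard +
      ({j : ℕ | q * j ∈ Y ∧ q * j ∉ D} ∩ Set.Ioc y (y + N)).ncard := by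
    refine le_trans (Set.ncard_le_ncard ?_ ((Set.Finite.inter_of_right (Set.finite_Ioc _ _) _).union
      (Set.Finite.inter_of_right (Set.finite_Ioc _ _) _))) (Set.ncard_union_le _ _)
    rintro d ⟨⟨h4 | h4, h5⟩, h6⟩
    · exact Or.inl ⟨⟨h4, h5⟩, h6⟩
    · exact Or.inr ⟨⟨h4, h5⟩, h6⟩
  have h4 : ((({j : ℕ | q * j ∈ X ∪ Y ∧ q * j ∉ D} ∩ Set.Ioc y (y + N)).ncard : ℕ) : ℝ) ≤
      (({j : ℕ | q * j ∈ X ∧ q * j ∉ D} ∩ Set.Ioc y (y + N)).ncard : ℝ) +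
      (({j : ℕ | q * j ∈ Y ∧ q * j ∉ D} ∩ Set.Ioc y (y + N)).ncard : ℝ) := by exact_mod_cast h3
  rw [add_mul]
  linarith

theorem FewI.mono_const {D X : Set ℕ} {q : ℕ} {c C C' : ℝ} (h : FewI D q X c C) (hC : C ≤ C') :
    FewI D q X c C' := by
  intro N y hN
  refine (h N y hN).trans (mul_le_mul_of_nonneg_right hC ?_)
  positivity

/-- few exceptions in the windows -/
theorem FewI.fewOf {D X : Set ℕ} {q : ℕ} {c C : ℝ} (hq : 0 < q) (hX : ∀ d ∈ X, q ∣ d)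
    (h : FewI D q X c C) : FewOf D X c C := by
  intro n x hn
  refine le_trans ?_ (h n (x / q) hn)
  refine Nat.cast_le.2 (Set.ncard_le_ncard_of_injOn (fun d => d / q) ?_ ?_
    ((Set.finite_Ioc _ _).inter_of_right _))
  · rintro d ⟨⟨hd1, hd2⟩, hd3, hd4⟩
    obtain ⟨j, rfl⟩ := hX d hd1
    show q * j / q ∈ _
    rw [Nat.mul_div_cancel_left j hq]
    refine ⟨⟨hd1, hd2⟩, ?_, ?_⟩
    · exact (Nat.div_lt_iff_lt_mul hq).2 (by rw [mul_comm]; exact hd3)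
    · have h1 : j ≤ (x + n) / q := (Nat.le_div_iff_mul_le hq).2 (by rw [mul_comm]; exact hd4)
      refine h1.trans ?_
      rw [← Nat.add_mul_div_left x n hq]
      refine Nat.div_le_div_right ?_
      have : n ≤ q * n := Nat.le_mul_of_pos_left _ hq
      omega
  · rintro d ⟨⟨hd1, hd2⟩, hd3, hd4⟩ d' ⟨⟨hd1', hd2'⟩, hd3', hd4'⟩ hdd
    obtain ⟨j, rfl⟩ := hX d hd1
    obtain ⟨j', rfl⟩ := hX d' hd1'
    have h2 : q * j / q = q * j' / q := hdd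
    rw [Nat.mul_div_cancel_left j hq, Nat.mul_div_cancel_left j' hq] at h2
    rw [h2]

/-- **three terms**, index form -/
def ThreeTermC (D : Set ℕ) (η c C : ℝ) : Prop := ∀ M : ℕ, 0 < M → 6 ∣ M → ∀ c₀ b b₁ b₂ : ℕ,
  Even c₀ → Even b → (3 ∣ c₀ ∨ 3 ∣ b) → b₁ + c₀ ≡ b [MOD M] → b + c₀ ≡ b₂ [MOD M] →
  ¬ FewC D M c₀ c C → ∀ e : ℝ, 0 < e → ∃ L : ℕ, ∀ n ≥ L, ∀ x : ℕ,
    ((1 - η) / (M : ℝ) - e) * n ≤ (cnt D M b₁ x n : ℝ) + cnt D M b x n + cnt D M b₂ x n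

theorem ThreeTermC.threeTerm {D : Set ℕ} {η c C : ℝ} (hT : ThreeTermC D η c C) :
    ThreeTerm D η c C := fun M hM0 hM c₀ b b₁ b₂ hc₀ hb h3 h1 h2 hF =>
  hT M hM0 hM c₀ b b₁ b₂ hc₀ hb h3 h1 h2 fun h => hF (h.fewOf hM0)

/-- a third of every even class -/
theorem third_ofC {D : Set ℕ} {η c C : ℝ} (hT : ThreeTermC D η c C) {M : ℕ} (hM0 : 0 < M)
    (hM : 6 ∣ M) (h : ¬ FewC D M 0 c C) (a : ℕ) (ha : Even a) :
    Share D M a ((1 - η) / (3 * (M : ℝ))) := by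
  intro e he
  obtain ⟨L, hL⟩ := hT M hM0 hM 0 a a a (by simp) ha (Or.inl (dvd_zero 3)) (Nat.ModEq.refl _)
    (Nat.ModEq.refl _) h (3 * e) (by positivity)
  refine ⟨L, fun n hn x => ?_⟩
  have h1 := hL n hn x
  change _ ≤ (cnt D M a x n : ℝ)
  have h2 : ((1 - η) / (M : ℝ) - 3 * e) * n = 3 * (((1 - η) / (3 * (M : ℝ)) - e) * n) := by
    have hMR : (M : ℝ) ≠ 0 := by exact_mod_cast hM0.ne'
    field_simp
  rw [h2] at h1
  linarith

end Pool.Agent.Lib_helper20.FI
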