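import Pool.Agent.Lib_helper20.FI.CaseOne
import Pool.Agent.Lib_helper20.FP.Four

/-!
# Few exceptions among the elements of one of four sets, or seven eighteenths (index form)
-/

set_option autoImplicit false

namespace Pool.Agent.Lib_helper20.FI

open Finset Pool.Agent.Lib_helper31.PS Pool.Agent.Lib_helper23.PG Pool.Agent.Lib_helper20.FP

/-- **four sets**: few exceptions among the elements of one of four sets, or seven eighteenths of the
multiples of `q` -/
theorem four_sets {k : ℕ} {D : Set ℕ} (hD : HitsBins 4 k D) {η κ C : ℝ} (hη0 : 0 ≤ η) (hη1 : η ≤ 1)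
    (hκ : 0 < κ) (hT : ThreeTermC D η κ C) {q : ℕ} (hq : 0 < q) (hq2 : Even q) :
    (∃ a, 1 ≤ a ∧ a ≤ 4 ∧ FewI D q (XX q a) κ (3 * C)) ∨
      Share D q 0 (7 / 18 * (1 - η) / (q : ℝ)) := by
  by_cases hX1 : FewI D q (XX q 1) κ (3 * C)
  · exact Or.inl ⟨1, by norm_num, by norm_num, hX1⟩
  by_cases hX2 : FewI D q (XX q 2) κ (3 * C)
  · exact Or.inl ⟨2, by norm_num, by norm_num, hX2⟩
  by_cases hX3 : FewI D q (XX q 3) κ (3 * C)
  · exact Or.inl ⟨3, by norm_num, by norm_num, hX3⟩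
  by_cases hX4 : FewI D q (XX q 4) κ (3 * C)
  · exact Or.inl ⟨4, by norm_num, by norm_num, hX4⟩
  right
  have h3q : 0 < 3 * q := by omega
  have h6 : 6 ∣ 3 * q := by
    have := hq2.two_dvd
    omega
  have hqR : (0 : ℝ) < q := by exact_mod_cast hq
  -- more than few multiples of `3 q` outside `D`
  have hn : ¬ FewC D (3 * q) 0 κ C := by
    intro h
    apply hX3
    have hC := h.const_nonneg h3q
    have h' : FewC D (3 * q) (0 * q) κ C := by rwa [Nat.zero_mul]
    refine ((h'.fewI hq (by norm_num)).mono ?_).mono_const (by linarith)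
    have e9 : (3 * q) ∣ (9 * q) := ⟨3, by ring⟩
    rintro d (hd | hd | hd)
    · show d ≡ 0 * q [MOD 3 * q]
      rw [Nat.zero_mul]
      exact hd.of_dvd e9
    · show d ≡ 0 * q [MOD 3 * q]
      rw [Nat.zero_mul]
      exact (hd.of_dvd e9).trans ((Nat.modEq_zero_iff_dvd).2 dvd_rfl)
    · show d ≡ 0 * q [MOD 3 * q]
      rw [Nat.zero_mul]
      refine (hd.of_dvd e9).trans ((Nat.modEq_zero_iff_dvd).2 ?_)
      exact ⟨2, by ring⟩
  have hthird : ∀ a : ℕ, Even a → Share D (3 * q) a ((1 - η) / (3 * ((3 * q : ℕ) : ℝ))) :=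
    fun a ha => third_ofC hT h3q h6 hn a ha
  by_cases h9 : AlmostAllOf D {d | d ≡ 0 [MOD 9 * q]}
  · refine (case_one hη0 hT hq hq2 h9 hthird hX1 hX2 hX4).mono ?_
    refine div_le_div_of_nonneg_right ?_ hqR.le
    exact mul_le_mul_of_nonneg_right (by norm_num) (by linarith)
  intro e he
  obtain ⟨ε, hε, hε1, hε2⟩ : ∃ ε : ℝ, 0 < ε ∧ ε ≤ 1 / 4 ∧ ε ≤ e * q :=
    ⟨min (1 / 4) (e * q), by positivity, min_le_left _ _, min_le_right _ _⟩
  rcases Pool.Agent.TA.ta_windows2 D k hD (3 * q) h3q h6 ε hε with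
    ⟨L, hL⟩ | ⟨r, J, hr, hJ, -, h⟩
  · -- half of the multiples of `3 q`
    have h7 : Share D (3 * q) 0 ((1 / 2 - ε) / ((3 * q : ℕ) : ℝ)) :=
      share_of_windows h3q (1 / 2 - ε) (by linarith) ⟨L, hL⟩
    have h4 := share_three (D := D) (a := 0) hq
      (s := fun i => if i = 0 then (1 / 2 - ε) / ((3 * q : ℕ) : ℝ) else
        (1 - η) / (3 * ((3 * q : ℕ) : ℝ)))
      (fun i _ => by
        by_cases hi : i = 0
        · subst hi
          simpa using h7
        · rw [if_neg hi]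
          exact hthird _ (by
            rw [zero_add]
            exact hq2.mul_left i))
    obtain ⟨L', hL'⟩ := h4 (e / 2) (by positivity)
    refine ⟨L', fun n hn x => le_trans ?_ (hL' n hn x)⟩
    refine mul_le_mul_of_nonneg_right ?_ (Nat.cast_nonneg n)
    simp only [if_true, one_ne_zero, if_false, OfNat.ofNat_ne_zero]
    have h8 : (1 / 2 - ε) / ((3 * q : ℕ) : ℝ) + (1 - η) / (3 * ((3 * q : ℕ) : ℝ)) +
        (1 - η) / (3 * ((3 * q : ℕ) : ℝ)) = (7 / 18 - 2 / 9 * η) / (q : ℝ) - ε / 3 / q := by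
      push_cast
      field_simp
      ring
    rw [h8]
    have h10 : ε / 3 / q ≤ e / 2 := by
      rw [div_div, div_le_iff₀ (by positivity)]
      nlinarith
    have h11 : 7 / 18 * (1 - η) / (q : ℝ) ≤ (7 / 18 - 2 / 9 * η) / (q : ℝ) :=
      div_le_div_of_nonneg_right (by linarith) hqR.le
    linarith
  · have hW := almostAllOf_of_windows h3q J h
    obtain ⟨d, hd, hJ⟩ := hJ
    have hr2 : 2 ≤ r := by
      by_contra hlt
      obtain rfl : r = 1 := by omega
      refine h9 (hW.mono fun y hy => ?_)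
      obtain ⟨i, rfl⟩ := (Nat.modEq_zero_iff_dvd).1 hy
      refine ⟨3 * i, by ring, ?_⟩
      have h1 := hJ (3 * i) ⟨0, by norm_num, ⟨i, by norm_num⟩⟩
      push_cast at h1 ⊢
      exact h1
    have h1 : ((4 * r - 1 : ℕ) : ℤ) = 4 * (r : ℤ) - 1 := by omega
    exact case_gen hη0 hT.threeTerm hκ hq hq2 (4 * r - 1) r hr2 h1 J d
      (by
        rw [h1]
        exact hd)
      (fun n hn => hJ n (by
        rw [h1] at hn
        exact hn)) hW hthird e he

/-- one third of the multiples of `q` -/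
theorem third_all {k : ℕ} {D : Set ℕ} (hD : HitsBins 4 k D) {κ C : ℝ}
    (hκ : 0 < κ) (hT : ThreeTermC D (1 / 8) κ C) {q : ℕ} (hq : 0 < q) (hq2 : Even q) :
    Share D q 0 (1 / 3 / (q : ℝ)) := by
  have hqR : (0 : ℝ) < q := by exact_mod_cast hq
  rcases four_sets hD (by norm_num) (by norm_num) hκ hT hq hq2 with ⟨a, ha1, ha4, h'⟩ | h
  · have hM0 : 0 < 9 * q := by omega
    have hXq : ∀ d ∈ XX q a, q ∣ d := by
      have h9q : q ∣ 9 * q := dvd_mul_left _ _
      rintro d (hd | hd | hd)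
      · exact (Nat.modEq_zero_iff_dvd).1 (hd.of_dvd h9q)
      · exact (Nat.modEq_zero_iff_dvd).1 ((hd.of_dvd h9q).trans
          ((Nat.modEq_zero_iff_dvd).2 (dvd_mul_left _ _)))
      · exact (Nat.modEq_zero_iff_dvd).1 ((hd.of_dvd h9q).trans
          ((Nat.modEq_zero_iff_dvd).2 (dvd_mul_left _ _)))
    have h := (h'.fewOf hq hXq).almostAllOf hκ
    intro e he
    obtain ⟨L0, hL0⟩ := cnt_full hM0 (a := 0 * q) (h.mono (fun d hd => Or.inl (by
      rw [Nat.zero_mul] at hd
      exact hd))) (e / 3) (by positivity)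
    obtain ⟨L1, hL1⟩ := cnt_full hM0 (a := a * q) (h.mono (fun d hd => Or.inr (Or.inl hd)))
      (e / 3) (by positivity)
    obtain ⟨L2, hL2⟩ := cnt_full hM0 (a := (9 - a) * q) (h.mono (fun d hd => Or.inr (Or.inr hd)))
      (e / 3) (by positivity)
    refine ⟨L0 + L1 + L2, fun n hn x => ?_⟩
    have g0 := hL0 n (by omega) x
    have g1 := hL1 n (by omega) x
    have g2 := hL2 n (by omega) x
    have g3 : ((cnt D (9 * q) (0 * q) x n + cnt D (9 * q) (a * q) x n +
        cnt D (9 * q) ((9 - a) * q) x n : ℕ) : ℝ) ≤ cnt D q 0 x n := by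
      exact_mod_cast cnt_trip D hq 9 a (by omega) (by omega) (by omega) x n
    push_cast at g3
    change _ ≤ (cnt D q 0 x n : ℝ)
    have h13 : (1 / 3 / (q : ℝ) - e) * n = 3 * ((1 / ((9 * q : ℕ) : ℝ) - e / 3) * n) := by
      push_cast
      field_simp
      ring
    rw [h13]
    linarith
  · exact h.mono (div_le_div_of_nonneg_right (by norm_num) hqR.le)

end Pool.Agent.Lib_helper20.FI
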