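import Pool.Agent.Lib_helper20.FI.Four
import Pool.Agent.Lib_helper31.PS.Three

/-!
# The theorem on four sets, index form
-/

set_option autoImplicit false

namespace Pool.Agent.Lib_helper20.FI

open Pool.Agent.Lib_helper31.PS Pool.Agent.Lib_helper23.PG Pool.Agent.Lib_helper20.FP

theorem threeTermC {k : ℕ} (hk : 0 < k) {D : Set ℕ} (hD : HitsBins 4 k D) (h0 : 0 ∉ D) (η : ℝ)
    (hη : 0 < η) : ∃ c : ℝ, 0 < c ∧ ∃ C : ℝ, ThreeTermC D η c C := by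
  obtain ⟨c, hc, C, h⟩ := three_index hk hD h0 η hη
  refine ⟨c, hc, C, fun M hM0 hM c₀ b b₁ b₂ hc₀ hb h3 h1 h2 hF e he => ?_⟩
  unfold FewC at hF
  push Not at hF
  obtain ⟨a, ha0, hac, N, hN, hlt⟩ := hF
  have h2M : 2 ∣ M := (by norm_num : 2 ∣ 6).trans hM
  have h3M : 3 ∣ M := (by norm_num : 3 ∣ 6).trans hM
  have ha2 : Even a := by
    rw [even_iff_two_dvd] at hc₀ ⊢
    exact (Nat.modEq_zero_iff_dvd).1 ((hac.of_dvd h2M).trans ((Nat.modEq_zero_iff_dvd).2 hc₀))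
  refine h M hM0 hM a b b₁ b₂ ha0 ha2 hb ?_ ?_ ?_ ⟨N, hN, hlt⟩ e he
  · rcases h3 with h3 | h3
    · exact Or.inl ((Nat.modEq_zero_iff_dvd).1
        ((hac.of_dvd h3M).trans ((Nat.modEq_zero_iff_dvd).2 h3)))
    · exact Or.inr h3
  · exact (Nat.ModEq.add_left _ hac).trans h1
  · exact (Nat.ModEq.add_left _ hac).trans h2

/-- uniform form -/
theorem four_uniform {k : ℕ} (hk : 0 < k) {D : Set ℕ} (hD : HitsBins 4 k D) (h0 : 0 ∉ D) (ε : ℝ)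
    (hε : 0 < ε) : ∃ c : ℝ, 0 < c ∧ ∃ C : ℝ, ∀ q : ℕ, 0 < q → Even q →
      (∃ a, 1 ≤ a ∧ a ≤ 4 ∧ FewI D q (XX q a) c C) ∨ Share D q 0 ((7 / 18 - ε) / (q : ℝ)) := by
  obtain ⟨η, hη, hη1, hηε⟩ : ∃ η : ℝ, 0 < η ∧ η ≤ 1 ∧ η ≤ ε :=
    ⟨min ε 1, lt_min hε one_pos, min_le_right _ _, min_le_left _ _⟩
  obtain ⟨c, hc, C, hT⟩ := threeTermC hk hD h0 η hη
  refine ⟨c, hc, 3 * C, fun q hq hq2 => ?_⟩
  rcases four_sets hD hη.le hη1 hc hT hq hq2 with h | h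
  · exact Or.inl h
  · refine Or.inr (h.mono ?_)
    exact div_le_div_of_nonneg_right (by linarith) (Nat.cast_nonneg q)

/-- one `q` -/
theorem four_single {k : ℕ} (hk : 0 < k) {D : Set ℕ} (hD : HitsBins 4 k D) (h0 : 0 ∉ D) {q : ℕ}
    (hq : 0 < q) (hq2 : Even q) :
    (∃ a, 1 ≤ a ∧ a ≤ 4 ∧ ∃ c : ℝ, 0 < c ∧ ∃ C : ℝ, FewI D q (XX q a) c C) ∨
      Share D q 0 (7 / 18 / (q : ℝ)) := by
  by_cases h : ∃ a, 1 ≤ a ∧ a ≤ 4 ∧ ∃ c : ℝ, 0 < c ∧ ∃ C : ℝ, FewI D q (XX q a) c C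
  · exact Or.inl h
  refine Or.inr (Share.of_forall fun e he => ?_)
  have hqR : (0 : ℝ) < q := by exact_mod_cast hq
  obtain ⟨c, hc, C, h1⟩ := four_uniform hk hD h0 (e * q) (by positivity)
  rcases h1 q hq hq2 with ⟨a, ha1, ha4, h2⟩ | h2
  · exact absurd ⟨a, ha1, ha4, c, hc, C, h2⟩ h
  · have h3 : (7 / 18 - e * q) / (q : ℝ) = 7 / 18 / (q : ℝ) - e := by
      field_simp
    rwa [h3] at h2

theorem third_every {k : ℕ} (hk : 0 < k) {D : Set ℕ} (hD : HitsBins 4 k D) (h0 : 0 ∉ D) {q : ℕ}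
    (hq : 0 < q) (hq2 : Even q) : Share D q 0 (1 / 3 / (q : ℝ)) := by
  obtain ⟨c, hc, C, hT⟩ := threeTermC hk hD h0 (1 / 8) (by norm_num)
  exact third_all hD hc hT hq hq2

end Pool.Agent.Lib_helper20.FI
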